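import Pool.Agent.X136.MB.Prob
import Pool.Agent.X136.MB.Full

set_option autoImplicit false

/-!
# The thinning threshold of the Maker-Breaker percolation game is `1`
-/

namespace Pool.Agent.Results.MP_791631_co.ThetaStarOne

open MeasureTheory ProbabilityTheory Pool.Agent.X136.MB

theorem full_win : ∀ᵐ c ∂perc ⟨1, by simp⟩, MakerWins {e | c e = true} := by
  have h1 : ∀ᵐ c ∂perc ⟨1, by simp⟩, ∀ e, c e = true := by
    rw [ae_all_iff]
    intro e
    rw [ae_iff]
    have h := Pool.Agent.X136.HT.bern_empty (V := Edge) ⟨1, by simp⟩ {e}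
    simp only [Finset.mem_singleton, forall_eq, sub_self, Finset.card_singleton, pow_one,
      ENNReal.ofReal_zero] at h
    have e1 : {a : Edge → Bool | ¬ a e = true} = {a | a e = false} := by ext a; simp
    rw [e1]
    exact h
  filter_upwards [h1] with c hc
  have : {e | c e = true} = Set.univ := by ext e; simp [hc e]
  rw [this]
  exact ⟨(0, 0), str, wins_full⟩

/-- **The thinning threshold is `1`.** -/
theorem result :
    thetaStar = 1 ∧
    ∀ θ : unitInterval, θ < 1 → ∀ᵐ c ∂perc θ, ¬ MakerWins {e | c e = true} := by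
  have hneg : ∀ θ : unitInterval, θ < 1 → ∀ᵐ c ∂perc θ, ¬ MakerWins {e | c e = true} :=
    fun θ h => ae_not_wins (by exact_mod_cast h)
  refine ⟨?_, hneg⟩
  have hset : {θ : ℝ | 1 / 2 < θ ∧ ∃ h : θ ∈ Set.Icc (0 : ℝ) 1,
      ∀ᵐ c ∂perc ⟨θ, h⟩, MakerWins {e | c e = true}} = {1} := by
    ext θ
    simp only [Set.mem_ofPred_eq, Set.mem_singleton_iff]
    constructor
    · rintro ⟨-, h, hw⟩
      by_contra hne
      have hlt : θ < 1 := lt_of_le_of_ne h.2 hne
      have h2 := hneg ⟨θ, h⟩ (by exact hlt)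
      have h3 : ∀ᵐ c ∂perc ⟨θ, h⟩, False := by
        filter_upwards [hw, h2] with c h4 h5 using h5 h4
      rw [Filter.eventually_false_iff_eq_bot, ae_eq_bot] at h3
      exact IsProbabilityMeasure.ne_zero (perc ⟨θ, h⟩) h3
    · rintro rfl
      exact ⟨by norm_num, by simp, full_win⟩
  unfold thetaStar
  rw [hset, csInf_singleton]

end Pool.Agent.Results.MP_791631_co.ThetaStarOne
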